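import Pool.Agent.H3.RwC

open Filter Topology Set MeasureTheory

/-- For a topological group with its Borel sets (multiplication jointly measurable) and an adapted
symmetric probability measure, a continuous non-constant function that converges almost surely
along the walk from every starting point has an infinite dimensional orbit span. -/
theorem Pool.Agent.Results.MP_0b4a43_pr.Full.result {G : Type} [Group G] [TopologicalSpace G]
    [IsTopologicalGroup G] [MeasurableSpace G] [BorelSpace G] [MeasurableMul₂ G]
    (μ : Measure G) [IsProbabilityMeasure μ]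
    (had : ∀ H : Subgroup G, IsClosed (H : Set G) → H ≠ ⊤ → μ H < 1)
    (hsym : ∀ A : Set G, MeasurableSet A → μ A = μ A⁻¹)
    (X : (ℕ → G) → ℕ → G) (hX0 : ∀ w, X w 0 = 1) (hX : ∀ w t, X w (t + 1) = X w t * w t)
    (f : G → ℝ) (hf : Continuous f) (hnc : ∃ x y, f x ≠ f y)
    (hconv : ∀ x : G, ∀ᵐ w ∂(Measure.infinitePi fun _ : ℕ => μ),
      ∃ l : ℝ, Tendsto (fun t => f (x * X w t)) atTop (𝓝 l)) :
    ¬ FiniteDimensional ℝ (Submodule.span ℝ (range fun γ : G => fun x : G => f (γ⁻¹ * x))) := by
  intro hfin
  obtain ⟨x, y, hxy⟩ := hnc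
  have e : ∀ w t, X w t = Pool.Agent.H3.Rw.walk w t := by
    intro w t
    induction t with
    | zero => exact hX0 w
    | succ t ih => rw [hX, ih]; rfl
  simp only [e] at hconv
  refine hxy (Pool.Agent.H3.Rw.const_of_conv μ (fun H c h => ?_) (fun A hA => (hsym A hA).symm)
    f hf hconv hfin x y)
  by_contra hn
  exact (had H c hn).ne h
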